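import Mathlib
import Pool.Graph.R_pool_sql_team_22c7b01f.H28.ZpBU

set_option autoImplicit false

namespace Pool.Agent.Results.MP_21eb72_gt.UnboundedManyPoints

open Finset ZMod

/-- a linear embedding of `ℂ^N` in `ℝ^m` with small image of the unit ball -/
lemma exists_emb (N m : ℕ) (h : 2 * N ≤ m) : ∃ ι : (Fin N → ℂ) →ₗ[ℝ] (Fin m → ℝ),
    Function.Injective ι ∧ ∀ z i, |ι z i| ≤ ‖z‖ / 2 := by
  let a : (Fin N → ℂ) → Fin m → ℝ := fun z i =>
    if h1 : i.1 < N then (z ⟨i.1, h1⟩).re / 2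
    else if h2 : i.1 - N < N then (z ⟨i.1 - N, h2⟩).im / 2 else 0
  refine ⟨⟨⟨a, fun z w => funext fun i => ?_⟩, fun c z => funext fun i => ?_⟩, fun z w hzw => ?_,
    fun z i => ?_⟩
  · simp only [a, Pi.add_apply]
    split_ifs <;> simp [add_div]
  · simp only [a, Pi.smul_apply]
    split_ifs <;> simp [mul_div_assoc]
  · funext k
    have h1 : a z ⟨k, by omega⟩ = a w ⟨k, by omega⟩ := congrFun hzw _
    have h2 : a z ⟨k + N, by omega⟩ = a w ⟨k + N, by omega⟩ := congrFun hzw _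
    simp [a] at h1 h2
    exact Complex.ext h1 h2
  · change |a z i| ≤ _
    simp only [a]
    split_ifs
    · rw [abs_div, abs_two]
      gcongr
      exact (Complex.abs_re_le_norm _).trans (norm_le_pi_norm z _)
    · rw [abs_div, abs_two]
      gcongr
      exact (Complex.abs_im_le_norm _).trans (norm_le_pi_norm z _)
    · rw [abs_zero]; positivity

/-- for every prime `p`: the graph of a continuous map meets some `2`-plane in at least `p`
points, the images of the vertices of an affinely regular `p`-gon -/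
theorem prime_case (p : ℕ) [hp : Fact p.Prime] (hp2 : 2 < p) (d : ℕ) :
    ∃ M : ℕ, ∀ m : ℕ, M ≤ m → ∀ f : (Fin m → ℝ) → (Fin d → ℝ),
      ContinuousOn f {x : Fin m → ℝ | ∀ i, x i ∈ Set.Ioo (-1 : ℝ) 1} →
      ∃ P : AffineSubspace ℝ ((Fin m → ℝ) × (Fin d → ℝ)),
        Module.finrank ℝ P.direction = 2 ∧ (P : Set ((Fin m → ℝ) × (Fin d → ℝ))).Nonempty ∧
        ∃ S : Finset (Fin m → ℝ), S.card = p ∧
          ∀ x ∈ S, (∀ i, x i ∈ Set.Ioo (-1 : ℝ) 1) ∧ (x, f x) ∈ P := by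
  classical
  obtain ⟨N, hN⟩ := Pool.Agent.H28.ZpBU.bu p (Fin d)
  refine ⟨2 * N, fun m hm f hf => ?_⟩
  obtain ⟨ι, hι, hb⟩ := exists_emb N m hm
  have hp0 : (p : ℝ) ≠ 0 := by
    have := hp.out.pos
    positivity
  let χ : AddChar (ZMod p) ℂ := stdAddChar
  have hn : ∀ k : ZMod p, ‖χ k‖ = 1 := fun k => by
    simp only [χ]; rw [stdAddChar_apply, Circle.norm_coe]
  have hrot : ∀ (k : ZMod p) (z : Fin N → ℂ), ∑ i, ‖z i‖ = 1 → ∑ i, ‖(χ k • z) i‖ = 1 :=
    fun k z hz => by simpa [hn] using hz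
  have hbox : ∀ z : Fin N → ℂ, ∑ i, ‖z i‖ = 1 → ∀ i, ι z i ∈ Set.Ioo (-1 : ℝ) 1 := fun z hz i => by
    have h1 : ‖z‖ ≤ 1 := (pi_norm_le_iff_of_nonneg zero_le_one).2 fun i =>
      (single_le_sum (f := fun i => ‖z i‖) (fun _ _ => norm_nonneg _) (mem_univ i)).trans_eq hz
    have := abs_le.1 (hb z i)
    constructor <;> linarith [this.1, this.2]
  have hg : ∀ k : ZMod p, ContinuousOn (fun z : Fin N → ℂ => f (ι (χ k • z)))
      {z | ∑ i, ‖z i‖ = 1} := fun k =>
    hf.comp (ι.continuous_of_finiteDimensional.comp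
      (continuous_const_smul _)).continuousOn fun z hz => hbox _ (hrot k z hz)
  let Y : (Fin N → ℂ) → Fin d → ℝ := fun z =>
    f (ι (χ 0 • z)) - ∑ k, (1 / (p : ℝ) + 2 / p * (χ (-k)).re) • f (ι (χ k • z))
  have hY : ∀ (i : ZMod p) z, Y (χ i • z) =
      f (ι (χ i • z)) - ∑ k, (1 / (p : ℝ) + 2 / p * (χ i * χ (-k)).re) • f (ι (χ k • z)) := by
    intro i z
    simp only [Y, smul_smul, ← AddChar.map_add_eq_mul, zero_add]
    congr 1
    refine Fintype.sum_equiv (Equiv.addRight i) _ _ fun k => ?_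
    simp only [Equiv.coe_addRight]
    congr 5
    ring
  have hsum : ∑ k, χ k = 0 := AddChar.sum_eq_zero_of_ne_one (by
    have h1 : (1 : ZMod p) ≠ 0 := one_ne_zero
    simpa using isPrimitive_stdAddChar p (a := 1) h1)
  have hpp : ∑ _k : ZMod p, (1 / (p : ℝ)) = 1 := by
    rw [sum_const, card_univ, ZMod.card, nsmul_eq_mul]
    field_simp
  obtain ⟨z, hz, h0⟩ := hN Y ((hg 0).sub (continuousOn_finset_sum _ fun k _ =>
    (hg k).const_smul (1 / (p : ℝ) + 2 / p * (χ (-k)).re : ℝ))) (fun z _ j => by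
      change ∑ k, Y (χ k • z) j = 0
      simp only [hY, Pi.sub_apply, Finset.sum_apply, Pi.smul_apply, smul_eq_mul, sum_sub_distrib]
      rw [sum_comm, sub_eq_zero]
      refine sum_congr rfl fun k _ => ?_
      rw [← sum_mul, sum_add_distrib, ← mul_sum, ← Complex.re_sum, ← sum_mul, hsum, hpp]
      simp)
  change ∀ (k : ZMod p) j, Y (χ k • z) j = 0 at h0
  have hz0 : z ≠ 0 := by
    rintro rfl
    simp at hz
  let A : Fin d → ℝ := ∑ k, (1 / (p : ℝ)) • f (ι (χ k • z))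
  let B : Fin d → ℝ := ∑ k, (2 / (p : ℝ) * (χ (-k)).re) • f (ι (χ k • z))
  let C : Fin d → ℝ := ∑ k, (-(2 / (p : ℝ) * (χ (-k)).im)) • f (ι (χ k • z))
  have hf' : ∀ i, f (ι (χ i • z)) = A + (χ i).re • B + (χ i).im • C := fun i => by
    have : Y (χ i • z) = 0 := funext (h0 i)
    rw [hY, sub_eq_zero] at this
    rw [this]
    simp only [A, B, C, smul_sum, smul_smul, ← sum_add_distrib, ← add_smul, Complex.mul_re]
    refine sum_congr rfl fun k _ => ?_
    congr 1
    ring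
  have hdec : ∀ c : ℂ, c • z = c.re • z + c.im • (Complex.I • z) := fun c => by
    funext i
    simp only [Pi.add_apply, Pi.smul_apply, smul_eq_mul, Complex.real_smul]
    conv_lhs => rw [← Complex.re_add_im c]
    ring
  let v : Fin 2 → (Fin m → ℝ) × (Fin d → ℝ) := ![(ι z, B), (ι (Complex.I • z), C)]
  have hv : LinearIndependent ℝ v := by
    refine LinearIndependent.pair_iff.2 fun s t hst => ?_
    have h1 : ι ((⟨s, t⟩ : ℂ) • z) = ι 0 := by
      rw [hdec, map_add, ι.map_smul, ι.map_smul, map_zero]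
      exact congrArg Prod.fst hst
    have := (smul_eq_zero.1 (hι h1)).resolve_right hz0
    exact ⟨congrArg Complex.re this, congrArg Complex.im this⟩
  refine ⟨AffineSubspace.mk' (0, A) (Submodule.span ℝ (Set.range v)), ?_,
    ⟨(0, A), AffineSubspace.self_mem_mk' _ _⟩,
    univ.image fun k => ι (χ k • z), ?_, fun x hx => ?_⟩
  · rw [AffineSubspace.direction_mk', finrank_span_eq_card hv]
    simp
  · rw [card_image_of_injective]
    · simp
    · exact fun a b h => injective_stdAddChar (smul_left_injective ℂ hz0 (hι h))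
  · obtain ⟨k, -, rfl⟩ := mem_image.1 hx
    refine ⟨hbox _ (hrot k z hz), ?_⟩
    rw [AffineSubspace.mem_mk']
    have : (ι (χ k • z), f (ι (χ k • z))) -ᵥ ((0 : Fin m → ℝ), A) =
        (χ k).re • v 0 + (χ k).im • v 1 := by
      rw [hf', hdec, map_add, ι.map_smul, ι.map_smul]
      ext <;> simp [v] <;> ring
    rw [this]
    exact add_mem (Submodule.smul_mem _ _ (Submodule.subset_span ⟨0, rfl⟩))
      (Submodule.smul_mem _ _ (Submodule.subset_span ⟨1, rfl⟩))

/-- a subspace can be enlarged to any dimension up to that of the space -/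
lemma enlarge {E : Type} [AddCommGroup E] [Module ℝ E] [FiniteDimensional ℝ E]
    (V : Submodule ℝ E) (k : ℕ) : Module.finrank ℝ V + k ≤ Module.finrank ℝ E →
    ∃ W : Submodule ℝ E, V ≤ W ∧ Module.finrank ℝ W = Module.finrank ℝ V + k := by
  induction k with
  | zero => exact fun _ => ⟨V, le_rfl, rfl⟩
  | succ k ih =>
    intro h
    obtain ⟨W, hVW, hW⟩ := ih (by omega)
    have hne : W ≠ ⊤ := by
      rintro rfl
      rw [finrank_top] at hW
      omega
    obtain ⟨x, hx⟩ : ∃ x, x ∉ W := by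
      by_contra hcon
      push Not at hcon
      exact hne (eq_top_iff.2 fun x _ => hcon x)
    refine ⟨W ⊔ Submodule.span ℝ {x}, hVW.trans le_sup_left, ?_⟩
    have hx0 : x ≠ 0 := by
      rintro rfl
      exact hx W.zero_mem
    have h1 := Submodule.finrank_sup_add_finrank_inf_eq W (Submodule.span ℝ {x})
    have h2 : W ⊓ Submodule.span ℝ {x} = ⊥ := by
      rw [eq_bot_iff]
      rintro y ⟨hy1, hy2⟩
      obtain ⟨c, rfl⟩ := Submodule.mem_span_singleton.1 hy2
      rcases eq_or_ne c 0 with rfl | hc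
      · simp
      · exact absurd ((W.smul_mem_iff hc).1 hy1) hx
    rw [h2, finrank_bot, finrank_span_singleton hx0] at h1
    omega

/-- For all `d` and `N` and all large `m`, the graph of every continuous map from the open cube
`(-1,1)^m` to `ℝ^d` meets some affine `2`-plane of `ℝ^m × ℝ^d` in at least `N` points. If `d ≥ 2`,
it therefore meets some affine `d`-dimensional plane in at least `N` points: in the notation of
the problem, `f(n,d) → ∞` as `n → ∞` for every `d ≥ 2`. -/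
theorem result :
    (∀ d N : ℕ, ∃ M : ℕ, ∀ m : ℕ, M ≤ m → ∀ f : (Fin m → ℝ) → (Fin d → ℝ),
      ContinuousOn f {x : Fin m → ℝ | ∀ i, x i ∈ Set.Ioo (-1 : ℝ) 1} →
      ∃ P : AffineSubspace ℝ ((Fin m → ℝ) × (Fin d → ℝ)),
        Module.finrank ℝ P.direction = 2 ∧
        ∃ S : Finset (Fin m → ℝ), S.card = N ∧
          ∀ x ∈ S, (∀ i, x i ∈ Set.Ioo (-1 : ℝ) 1) ∧ (x, f x) ∈ P) ∧
    (∀ d N : ℕ, 2 ≤ d → ∃ M : ℕ, ∀ m : ℕ, M ≤ m → ∀ f : (Fin m → ℝ) → (Fin d → ℝ),
      ContinuousOn f {x : Fin m → ℝ | ∀ i, x i ∈ Set.Ioo (-1 : ℝ) 1} →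
      ∃ P : AffineSubspace ℝ ((Fin m → ℝ) × (Fin d → ℝ)),
        Module.finrank ℝ P.direction = d ∧
        ∃ S : Finset (Fin m → ℝ), S.card = N ∧
          ∀ x ∈ S, (∀ i, x i ∈ Set.Ioo (-1 : ℝ) 1) ∧ (x, f x) ∈ P) := by
  classical
  have key : ∀ d N : ℕ, ∃ M : ℕ, ∀ m : ℕ, M ≤ m → ∀ f : (Fin m → ℝ) → (Fin d → ℝ),
      ContinuousOn f {x : Fin m → ℝ | ∀ i, x i ∈ Set.Ioo (-1 : ℝ) 1} →
      ∃ P : AffineSubspace ℝ ((Fin m → ℝ) × (Fin d → ℝ)),
        Module.finrank ℝ P.direction = 2 ∧ (P : Set ((Fin m → ℝ) × (Fin d → ℝ))).Nonempty ∧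
        ∃ S : Finset (Fin m → ℝ), S.card = N ∧
          ∀ x ∈ S, (∀ i, x i ∈ Set.Ioo (-1 : ℝ) 1) ∧ (x, f x) ∈ P := by
    intro d N
    obtain ⟨p, hpN, hp⟩ := Nat.exists_infinite_primes (N + 3)
    haveI : Fact p.Prime := ⟨hp⟩
    obtain ⟨M, hM⟩ := prime_case p (by omega) d
    refine ⟨M, fun m hm f hf => ?_⟩
    obtain ⟨P, hP, hne, S, hS, hSP⟩ := hM m hm f hf
    obtain ⟨T, hT, hTN⟩ := Finset.exists_subset_card_eq (show N ≤ S.card by omega)
    exact ⟨P, hP, hne, T, hTN, fun x hx => hSP x (hT hx)⟩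
  refine ⟨fun d N => ?_, fun d N hd => ?_⟩
  · obtain ⟨M, hM⟩ := key d N
    refine ⟨M, fun m hm f hf => ?_⟩
    obtain ⟨P, hP, _, h⟩ := hM m hm f hf
    exact ⟨P, hP, h⟩
  · obtain ⟨M, hM⟩ := key d N
    refine ⟨M, fun m hm f hf => ?_⟩
    obtain ⟨P, hP, ⟨q, hq⟩, S, hS, hSP⟩ := hM m hm f hf
    obtain ⟨W, hW1, hW2⟩ := enlarge P.direction (d - 2) (by
      rw [hP, Module.finrank_prod, Module.finrank_fin_fun, Module.finrank_fin_fun]
      omega)
    refine ⟨AffineSubspace.mk' q W, by rw [AffineSubspace.direction_mk', hW2, hP]; omega, S, hS,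
      fun x hx => ⟨(hSP x hx).1, ?_⟩⟩
    rw [AffineSubspace.mem_mk']
    exact hW1 (AffineSubspace.vsub_mem_direction (hSP x hx).2 hq)

end Pool.Agent.Results.MP_21eb72_gt.UnboundedManyPoints
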